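import Pool.Agent.H41.DS.Pis
import Pool.Agent.H87.MM.Closed

/-!
# Derived sets of the set of nonreciprocal measures: `log (k + 2)` is in the `k`-th derived set
-/

set_option autoImplicit false

open Polynomial MeasureTheory Filter Topology

namespace Pool.Agent.H41.DS

open Pool.Agent.H87.MM

/-- the set of the measures of the polynomials without reciprocal factors -/
def LN : Set ℝ := {x : ℝ | ∃ (d : ℕ) (G : MvPolynomial (Fin d) ℤ), G ≠ 0 ∧ Cl G ∧ mm G = x}

theorem deriv_bound {x : ℂ} (hx : ‖x‖ ≤ 1 / 2) (e : List ℕ) :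
    ‖((derivative ((e.map fun a => (X : ℂ[X]) ^ (a + 1)).sum)).eval x)‖ ≤ e.length := by
  induction e with
  | nil => simp
  | cons a e ih =>
    rw [List.map_cons, List.sum_cons, derivative_add, eval_add, derivative_X_pow]
    refine (norm_add_le _ _).trans ?_
    rw [List.length_cons]
    push_cast
    have h1 : ‖(C ((a : ℂ) + 1) * (X : ℂ[X]) ^ (a + 1 - 1)).eval x‖ ≤ 1 := by
      rw [eval_mul, eval_C, eval_pow, eval_X, norm_mul, norm_pow, Nat.add_sub_cancel]
      have h2 : ‖(a : ℂ) + 1‖ = a + 1 := by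
        have : (a : ℂ) + 1 = ((a + 1 : ℕ) : ℂ) := by push_cast; ring
        rw [this, Complex.norm_natCast]
        push_cast
        ring
      rw [h2]
      have h3 : ‖x‖ ^ a ≤ (1 / 2) ^ a := pow_le_pow_left₀ (norm_nonneg _) hx a
      have h4 : ((a : ℝ) + 1) * (1 / 2) ^ a ≤ 1 := by
        rw [one_div, inv_pow, ← div_eq_mul_inv, div_le_one (by positivity)]
        exact_mod_cast Nat.lt_two_pow_self
      have h5 : (0 : ℝ) ≤ (a : ℝ) + 1 := by positivity
      exact (mul_le_mul_of_nonneg_left h3 h5).trans h4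
    rw [Nat.add_sub_cancel] at h1
    linarith

theorem map_PR (n : ℕ) (e : List ℕ) : (PR n e).map (Int.castRingHom ℂ) =
    1 - (n : ℂ[X]) * X + (e.map fun a => X ^ (a + 1)).sum := by
  unfold PR
  rw [Polynomial.map_add, Polynomial.map_sub, Polynomial.map_mul, Polynomial.map_one, map_X,
    Polynomial.map_natCast]
  congr 1
  induction e with
  | nil => simp
  | cons a e ih =>
    rw [List.map_cons, List.sum_cons, Polynomial.map_add, ih, List.map_cons, List.sum_cons,
      Polynomial.map_pow, map_X]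

theorem logM {n : ℕ} {e : List ℕ} (h : Adm n e) {ρ : ℝ} (hρ : Rt n e ρ) :
    ((PR n e).map (Int.castRingHom ℂ)).logMahlerMeasure = -Real.log ρ := by
  obtain ⟨p, hp⟩ : ∃ p, p = (PR n e).map (Int.castRingHom ℂ) := ⟨_, rfl⟩
  rw [← hp]
  have hn : (e.length : ℝ) + 2 ≤ n := by exact_mod_cast h.len
  have hρn : ‖(ρ : ℂ)‖ = ρ := by rw [Complex.norm_real, Real.norm_of_nonneg hρ.1.le]
  have hev : ∀ z : ℂ, p.eval z = 1 - n * z + SS e z := fun z => by rw [hp, eval_PR]
  have hS0 : SS e (0 : ℂ) = 0 := by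
    unfold SS
    refine List.sum_eq_zero fun y hy => ?_
    obtain ⟨a, _, rfl⟩ := List.mem_map.mp hy
    simp
  have hp0 : p.eval 0 = 1 := by rw [hev, hS0]; ring
  have hpne : p ≠ 0 := by
    rintro rfl
    simp at hp0
  have hroot : p.IsRoot (ρ : ℂ) := by
    rw [IsRoot.def, hev, hρ.complex]
    ring
  obtain ⟨q, hq⟩ := dvd_iff_isRoot.mpr hroot
  have hq0 : q ≠ 0 := by
    rintro rfl
    rw [mul_zero] at hq
    exact hpne hq
  have hqρ : q.eval (ρ : ℂ) ≠ 0 := by
    intro h0
    have h1 : (derivative p).eval (ρ : ℂ) = 0 := by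
      rw [hq, derivative_mul, eval_add, eval_mul, eval_mul, h0]
      simp
    have h2 : (derivative p).eval (ρ : ℂ) =
        -n + (derivative ((e.map fun a => (X : ℂ[X]) ^ (a + 1)).sum)).eval (ρ : ℂ) := by
      rw [hp, map_PR, derivative_add, derivative_sub, derivative_one, eval_add, derivative_mul,
        derivative_natCast]
      simp
    rw [h1] at h2
    have h3 : (n : ℂ) = (derivative ((e.map fun a => (X : ℂ[X]) ^ (a + 1)).sum)).eval (ρ : ℂ) := by
      linear_combination h2
    have h4 := deriv_bound (x := (ρ : ℂ)) (by rw [hρn]; exact hρ.2.1) e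
    rw [← h3, Complex.norm_natCast] at h4
    linarith
  have hbig : ∀ a ∈ q.roots, 1 < ‖a‖ := by
    intro a ha
    have h1 : q.eval a = 0 := (mem_roots'.mp ha).2
    by_contra hcon
    push Not at hcon
    have h2 : p.eval a = 0 := by rw [hq, eval_mul, h1, mul_zero]
    rw [hev] at h2
    have h3 := uniq h hρ hcon (by linear_combination -h2)
    rw [h3] at h1
    exact hqρ h1
  rw [hq, logMahlerMeasure_mul_eq_add_logMahlerMeasure (by rw [← hq]; exact hpne),
    logMahlerMeasure_X_sub_C, logMahlerMeasure_eq_log_leadingCoeff_add_sum_log_roots]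
  have h1 : Real.posLog ‖(ρ : ℂ)‖ = 0 := by
    rw [Real.posLog_eq_zero_iff, hρn, abs_of_pos hρ.1]
    linarith [hρ.2.1]
  rw [h1, zero_add]
  have h2 : (q.roots.map fun a => Real.posLog ‖a‖) = q.roots.map fun a => Real.log ‖a‖ := by
    refine Multiset.map_congr rfl fun a ha => ?_
    exact Real.posLog_eq_log (by rw [abs_norm]; exact (hbig a ha).le)
  rw [h2]
  have hqr : ∀ a ∈ q.roots, ‖a‖ ≠ 0 := fun a ha => by
    have := hbig a ha
    linarith
  have h3 : ‖q.eval 0‖ = ‖q.leadingCoeff‖ * (q.roots.map fun a => ‖a‖).prod := by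
    have h4 := (IsAlgClosed.splits q).coeff_zero_eq_leadingCoeff_mul_prod_roots
    rw [coeff_zero_eq_eval_zero] at h4
    rw [h4, norm_mul, norm_mul, norm_pow, norm_neg, norm_one, one_pow, one_mul]
    congr 1
    have key : ∀ s : Multiset ℂ, ‖s.prod‖ = (s.map fun a => ‖a‖).prod := by
      intro s
      induction s using Multiset.induction_on with
      | empty => simp
      | cons a s ih => rw [Multiset.prod_cons, norm_mul, ih, Multiset.map_cons, Multiset.prod_cons]
    exact key _
  have h4 : ρ * ‖q.eval 0‖ = 1 := by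
    have h5 := hp0
    rw [hq, eval_mul] at h5
    have h6 := congrArg norm h5
    rw [norm_mul, eval_sub, eval_X, eval_C, zero_sub, norm_neg, hρn, norm_one] at h6
    exact h6
  have h5 : (q.roots.map fun a => Real.log ‖a‖).sum = Real.log (q.roots.map fun a => ‖a‖).prod := by
    have key : ∀ s : Multiset ℂ, (∀ a ∈ s, ‖a‖ ≠ 0) → (s.map fun a => Real.log ‖a‖).sum =
        Real.log (s.map fun a => ‖a‖).prod := by
      intro s
      induction s using Multiset.induction_on with
      | empty => simp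
      | cons a s ih =>
        intro hs
        rw [Multiset.map_cons, Multiset.sum_cons, Multiset.map_cons, Multiset.prod_cons,
          ih fun b hb => hs b (Multiset.mem_cons_of_mem hb), Real.log_mul
          (hs a (Multiset.mem_cons_self _ _))]
        refine Multiset.prod_ne_zero fun h0 => ?_
        obtain ⟨b, hb, hb0⟩ := Multiset.mem_map.mp h0
        exact hs b (Multiset.mem_cons_of_mem hb) hb0
    exact key _ hqr
  have h6 : (q.roots.map fun a => ‖a‖).prod ≠ 0 := by
    refine Multiset.prod_ne_zero fun h0 => ?_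
    obtain ⟨b, hb, hb0⟩ := Multiset.mem_map.mp h0
    exact hqr b hb hb0
  rw [h5, ← Real.log_mul (by rw [norm_ne_zero_iff, Ne, leadingCoeff_eq_zero]; exact hq0) h6, ← h3,
    ← Real.log_inv]
  congr 1
  exact eq_inv_of_mul_eq_one_right h4

/-- the polynomial as a polynomial in one variable of the library -/
noncomputable def em (p : ℤ[X]) : MvPolynomial (Fin 1) ℤ :=
  (MvPolynomial.uniqueAlgEquiv ℤ (Fin 1)).symm p

theorem eval_em (p : ℤ[X]) (x : Fin 1 → ℂ) :
    MvPolynomial.eval x (MvPolynomial.map (Int.castRingHom ℂ) (em p)) =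
      (p.map (Int.castRingHom ℂ)).eval (x 0) := by
  rw [MvPolynomial.eval_map, eval_map]
  unfold em
  rw [MvPolynomial.uniqueAlgEquiv_symm_apply]
  have h1 : (MvPolynomial.eval₂Hom (Int.castRingHom ℂ) x).comp
      (Polynomial.eval₂RingHom MvPolynomial.C (MvPolynomial.X default)) =
      Polynomial.eval₂RingHom (Int.castRingHom ℂ) (x 0) := by
    apply Polynomial.ringHom_ext
    · intro a
      simp
    · simp
  exact congrArg (fun f : ℤ[X] →+* ℂ => f p) h1

/-- the measure of a polynomial in one variable -/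
theorem mm_em (p : ℤ[X]) : mm (em p) = (p.map (Int.castRingHom ℂ)).logMahlerMeasure := by
  rw [mm_eq]
  simp only [eval_em]
  obtain ⟨g, hg⟩ : ∃ g : ℝ → ℝ, g = fun s => Real.log ‖(p.map (Int.castRingHom ℂ)).eval
      (Complex.exp (((2 * Real.pi * s : ℝ) : ℂ) * Complex.I))‖ := ⟨_, rfl⟩
  have h1 := (volume_preserving_funUnique (Fin 1) ℝ).setIntegral_preimage_emb
    (MeasurableEquiv.funUnique (Fin 1) ℝ).measurableEmbedding g (Set.Icc 0 1)
  have h2 : (MeasurableEquiv.funUnique (Fin 1) ℝ) ⁻¹' (Set.Icc 0 1) =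
      Set.univ.pi (fun _ => Set.Icc (0 : ℝ) 1) := by
    ext t
    simp only [Set.mem_preimage, MeasurableEquiv.funUnique_apply, Set.mem_univ_pi]
    exact ⟨fun h i => by rw [Subsingleton.elim i default]; exact h, fun h => h default⟩
  rw [h2] at h1
  have h3 : (∫ t : Fin 1 → ℝ in Set.univ.pi (fun _ => Set.Icc (0 : ℝ) 1),
      Real.log ‖(p.map (Int.castRingHom ℂ)).eval
        (Complex.exp (((2 * Real.pi * t 0 : ℝ) : ℂ) * Complex.I))‖) =
      ∫ s in Set.Icc (0 : ℝ) 1, g s := by
    rw [← h1, hg]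
    rfl
  rw [h3, integral_Icc_eq_integral_Ioc, ← intervalIntegral.integral_of_le zero_le_one,
    logMahlerMeasure_def, Real.circleAverage_def]
  have h := intervalIntegral.integral_comp_mul_left
    (f := fun θ : ℝ => Real.log ‖(p.map (Int.castRingHom ℂ)).eval (circleMap 0 1 θ)‖)
    (a := 0) (b := 1) (c := 2 * Real.pi) (by positivity)
  rw [mul_zero, mul_one] at h
  rw [← h, hg]
  refine intervalIntegral.integral_congr fun a _ => ?_
  simp [circleMap]

theorem em_coeff (p : ℤ[X]) (d : Fin 1 →₀ ℕ) : (em p).coeff d = p.coeff (d 0) :=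
  MvPolynomial.coeff_uniqueAlgEquiv_symm ℤ p d

/-- no reciprocal factors -/
theorem cl_em {n : ℕ} {e : List ℕ} (h : Adm n e) : Cl (em (PR n e)) := by
  obtain ⟨ρ, hρ⟩ := exists_rt h
  intro G hG hd _
  by_cases hr : Recip G
  · right
    obtain ⟨g, hg⟩ : ∃ g, em g = G := ⟨MvPolynomial.uniqueAlgEquiv ℤ (Fin 1) G, by
      unfold em; exact AlgEquiv.symm_apply_apply _ _⟩
    have hgd : g ∣ PR n e := by
      rw [← hg] at hd
      obtain ⟨H, hH⟩ := hd
      refine ⟨MvPolynomial.uniqueAlgEquiv ℤ (Fin 1) H, ?_⟩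
      have h1 := congrArg (MvPolynomial.uniqueAlgEquiv ℤ (Fin 1)) hH
      unfold em at h1
      rw [map_mul, AlgEquiv.apply_symm_apply, AlgEquiv.apply_symm_apply] at h1
      exact h1
    by_cases hdeg : g.natDegree = 0
    · rw [natDegree_eq_zero] at hdeg
      obtain ⟨c, rfl⟩ := hdeg
      refine ⟨c, ?_⟩
      rw [← hg]
      unfold em
      rw [MvPolynomial.uniqueAlgEquiv_symm_apply, eval₂_C]
    · exfalso
      -- a complex root
      have hdeg' : (g.map (Int.castRingHom ℂ)).degree ≠ 0 := by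
        rw [degree_map_eq_of_injective (RingHom.injective_int (Int.castRingHom ℂ))]
        intro h1
        exact hdeg (natDegree_eq_of_degree_eq_some h1)
      obtain ⟨α, hα⟩ := IsAlgClosed.exists_root _ hdeg'
      have hroot : ∀ z : ℂ, eval₂ (Int.castRingHom ℂ) z g = 0 → (n : ℂ) * z = 1 + SS e z := by
        intro z hz
        have h1 : ((PR n e).map (Int.castRingHom ℂ)).eval z = 0 := by
          rw [eval_map]
          exact eval₂_eq_zero_of_dvd_of_eval₂_eq_zero _ _ hgd hz
        rw [eval_PR] at h1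
        linear_combination -h1
      have hα' : eval₂ (Int.castRingHom ℂ) α g = 0 := by
        rw [← eval_map]
        exact hα
      have hα0 : α ≠ 0 := by
        rintro rfl
        have h1 := hroot 0 hα'
        have hS0 : SS e (0 : ℂ) = 0 := by
          unfold SS
          refine List.sum_eq_zero fun y hy => ?_
          obtain ⟨a, _, rfl⟩ := List.mem_map.mp hy
          simp
        rw [hS0] at h1
        norm_num at h1
      obtain ⟨a, ε, hε, hsa, hca⟩ := hr
      have hga : ∀ j, g.coeff j ≠ 0 → j ≤ a 0 := by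
        intro j hj
        have h1 := hsa (Finsupp.single 0 j) (by
          rw [MvPolynomial.mem_support_iff, ← hg, em_coeff, Finsupp.single_eq_same]
          exact hj) 0
        rwa [Finsupp.single_eq_same] at h1
      have hgr : ∀ j, j ≤ a 0 → g.coeff (a 0 - j) = ε * g.coeff j := by
        intro j hj
        have h1 := hca (Finsupp.single 0 j) (by
          intro i
          rw [Subsingleton.elim i 0, Finsupp.single_eq_same]
          exact hj)
        rw [← hg, em_coeff, em_coeff, Finsupp.tsub_apply, Finsupp.single_eq_same] at h1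
        exact h1
      have hrefl : reflect (a 0) g = C ε * g := by
        ext j
        rw [coeff_reflect, coeff_C_mul]
        by_cases hj : j ≤ a 0
        · rw [revAt_le hj, hgr j hj]
        · push Not at hj
          rw [revAt_eq_self_of_lt hj]
          have : g.coeff j = 0 := by
            by_contra h1
            exact absurd (hga j h1) (by omega)
          rw [this, mul_zero]
      have hnd : g.natDegree ≤ a 0 := by
        rw [natDegree_le_iff_coeff_eq_zero]
        intro N hN
        by_contra h1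
        exact absurd (hga N h1) (by omega)
      have hinv : eval₂ (Int.castRingHom ℂ) α⁻¹ g = 0 := by
        have : Invertible α := invertibleOfNonzero hα0
        have h1 := eval₂_reflect_mul_pow (Int.castRingHom ℂ) α (a 0) g hnd
        rw [hα', hrefl, eval₂_mul, eval₂_C, invOf_eq_inv] at h1
        rcases mul_eq_zero.mp h1 with h2 | h2
        · rcases mul_eq_zero.mp h2 with h3 | h3
          · exfalso
            rcases hε with h4 | h4 <;> · rw [h4] at h3; norm_num at h3
          · exact h3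
        · exact absurd h2 (pow_ne_zero _ hα0)
      have key : ∀ z : ℂ, ‖z‖ ≤ 1 → eval₂ (Int.castRingHom ℂ) z g = 0 →
          eval₂ (Int.castRingHom ℂ) z⁻¹ g = 0 → False := by
        intro z hz h1 h2
        have h3 := uniq h hρ hz (hroot z h1)
        rw [h3, ← Complex.ofReal_inv] at h2
        have h4 := hroot _ h2
        apply inv_not_root h hρ
        rw [← SS_ofReal] at h4
        exact_mod_cast h4
      rcases le_total ‖α‖ 1 with h1 | h1
      · exact key α h1 hα' hinv
      · refine key α⁻¹ ?_ hinv (by rw [inv_inv]; exact hα')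
        rw [norm_inv]
        exact inv_le_one_of_one_le₀ h1
  · exact Or.inl hr

theorem PR_ne {n : ℕ} {e : List ℕ} : PR n e ≠ 0 := by
  intro h0
  have h1 := eval_PR n e 0
  have hS0 : SS e (0 : ℂ) = 0 := by
    unfold SS
    refine List.sum_eq_zero fun y hy => ?_
    obtain ⟨a, _, rfl⟩ := List.mem_map.mp hy
    simp
  rw [h0, hS0] at h1
  simp at h1

theorem mem_LN {n : ℕ} {e : List ℕ} (h : Adm n e) {ρ : ℝ} (hρ : Rt n e ρ) :
    -Real.log ρ ∈ LN := by
  refine ⟨1, em (PR n e), ?_, cl_em h, ?_⟩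
  · intro h0
    unfold em at h0
    rw [map_eq_zero_iff _ (MvPolynomial.uniqueAlgEquiv ℤ (Fin 1)).symm.injective] at h0
    exact PR_ne h0
  · rw [mm_em, logM h hρ]

/-- the limit when the last exponent goes to infinity -/
theorem rt_dist {n N : ℕ} {e : List ℕ} (h : Adm n e) {ρ ρ' : ℝ} (hρ : Rt n e ρ)
    (hρ' : Rt n (N :: e) ρ') : |ρ' - ρ| ≤ (1 / 2) ^ N ∧ ρ' ≠ ρ := by
  have hn : (e.length : ℝ) + 2 ≤ n := by exact_mod_cast h.len
  have h1 : SS (N :: e) ρ' = ρ' ^ (N + 1) + SS e ρ' := by
    simp only [SS, List.map_cons, List.sum_cons]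
  constructor
  · have h2 : (n : ℝ) * (ρ' - ρ) = ρ' ^ (N + 1) + (SS e ρ' - SS e ρ) := by
      rw [mul_sub, hρ'.2.2, hρ.2.2, h1]
      ring
    have h3 : |SS e ρ' - SS e ρ| ≤ e.length * |ρ' - ρ| := by
      have h4 := SS_lip (z := (ρ' : ℂ)) (w := (ρ : ℂ))
        (by rw [Complex.norm_real, Real.norm_of_nonneg hρ'.1.le]; exact hρ'.2.1)
        (by rw [Complex.norm_real, Real.norm_of_nonneg hρ.1.le]; exact hρ.2.1) e
      rw [← SS_ofReal, ← SS_ofReal, ← Complex.ofReal_sub, ← Complex.ofReal_sub, Complex.norm_real,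
        Complex.norm_real, Real.norm_eq_abs, Real.norm_eq_abs] at h4
      exact h4
    have h5 : |ρ' ^ (N + 1)| ≤ (1 / 2) ^ (N + 1) := by
      rw [abs_of_nonneg (pow_nonneg hρ'.1.le _)]
      exact pow_le_pow_left₀ hρ'.1.le hρ'.2.1 _
    have h6 : (n : ℝ) * |ρ' - ρ| ≤ (1 / 2) ^ (N + 1) + e.length * |ρ' - ρ| := by
      have h7 := congrArg abs h2
      rw [abs_mul, Nat.abs_cast] at h7
      rw [h7]
      exact (abs_add_le _ _).trans (add_le_add h5 h3)
    have h8 : ((e.length : ℝ) + 2) * |ρ' - ρ| ≤ n * |ρ' - ρ| :=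
      mul_le_mul_of_nonneg_right hn (abs_nonneg _)
    have h9 : (0 : ℝ) ≤ (1 / 2) ^ N := by positivity
    rw [pow_succ] at h6
    nlinarith [abs_nonneg (ρ' - ρ)]
  · intro h2
    have h3 := hρ'.2.2
    rw [h1, h2, hρ.2.2] at h3
    have h4 : ρ ^ (N + 1) = 0 := by linarith
    exact absurd h4 (pow_ne_zero _ hρ.1.ne')

theorem mem_der (j : ℕ) : ∀ {n : ℕ} {e : List ℕ}, Adm n e → e.length + 2 + j = n →
    ∀ {ρ : ℝ}, Rt n e ρ → -Real.log ρ ∈ derivedSet^[j] LN := by
  induction j with
  | zero => intro n e h _ ρ hρ; exact mem_LN h hρ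
  | succ j ih =>
    intro n e h hj ρ hρ
    have hadm : ∀ N, Adm n ((N + 2) :: e) := by
      intro N
      refine ⟨?_, ?_⟩
      · rw [List.length_cons]; omega
      · intro a ha
        rcases List.mem_cons.mp ha with h1 | h1
        · omega
        · exact h.two a h1
    choose ρ' hρ' using fun N => exists_rt (hadm N)
    have hmem : ∀ N, -Real.log (ρ' N) ∈ derivedSet^[j] LN := fun N =>
      ih (hadm N) (by rw [List.length_cons]; omega) (hρ' N)
    have hlim : Tendsto ρ' atTop (𝓝 ρ) := by
      rw [tendsto_iff_dist_tendsto_zero]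
      have h2 : Tendsto (fun N : ℕ => ((1 : ℝ) / 2) ^ (N + 2)) atTop (𝓝 0) :=
        (tendsto_pow_atTop_nhds_zero_of_lt_one (by norm_num) (by norm_num)).comp
          (tendsto_add_atTop_nat 2)
      refine squeeze_zero (fun _ => dist_nonneg) (fun N => ?_) h2
      rw [Real.dist_eq]
      exact (rt_dist h hρ (hρ' N)).1
    have hlim2 : Tendsto (fun N => -Real.log (ρ' N)) atTop (𝓝 (-Real.log ρ)) :=
      ((Real.continuousAt_log hρ.1.ne').tendsto.comp hlim).neg
    have hne : ∀ N, -Real.log (ρ' N) ≠ -Real.log ρ := by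
      intro N h1
      have h2 := Real.log_injOn_pos (Set.mem_Ioi.mpr (hρ' N).1) (Set.mem_Ioi.mpr hρ.1)
        (neg_injective h1)
      exact (rt_dist h hρ (hρ' N)).2 h2
    rw [Function.iterate_succ_apply']
    change AccPt _ (𝓟 _)
    rw [accPt_iff_nhds]
    intro U hU
    obtain ⟨N, hN⟩ := (hlim2.eventually_mem hU).exists
    exact ⟨_, ⟨hN, hmem N⟩, hne N⟩

/-- `log (k + 2)` belongs to the `k`-th derived set -/
theorem log_mem_der (k : ℕ) : Real.log (k + 2) ∈ derivedSet^[k] LN := by
  have hadm : Adm (k + 2) [] := ⟨by simp, by simp⟩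
  have hrt : Rt (k + 2) [] ((k : ℝ) + 2)⁻¹ := by
    refine ⟨by positivity, ?_, ?_⟩
    · rw [one_div]
      exact inv_anti₀ (by norm_num) (by linarith [(Nat.cast_nonneg k : (0 : ℝ) ≤ k)])
    · have : (k : ℝ) + 2 ≠ 0 := by positivity
      simp only [SS, List.map_nil, List.sum_nil, add_zero]
      push_cast
      field_simp
  have h1 := mem_der k hadm (by simp; omega) hrt
  rw [Real.log_inv, neg_neg] at h1
  exact h1

end Pool.Agent.H41.DS
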