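import Mathlib

/-!
# Derived sets of the set of nonreciprocal measures: a family of polynomials with one small root
-/

set_option autoImplicit false

open Polynomial

namespace Pool.Agent.H41.DS

/-- the polynomial `1 - n X + ∑ X ^ (a + 1)` -/
noncomputable def PR (n : ℕ) (e : List ℕ) : ℤ[X] :=
  1 - (n : ℤ[X]) * X + (e.map fun a => X ^ (a + 1)).sum

/-- admissible data -/
structure Adm (n : ℕ) (e : List ℕ) : Prop where
  len : e.length + 2 ≤ n
  two : ∀ a ∈ e, 2 ≤ a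

/-- the power sum -/
def SS {R : Type*} [CommRing R] (e : List ℕ) (x : R) : R := (e.map fun a => x ^ (a + 1)).sum

theorem aeval_PR {R : Type*} [CommRing R] (n : ℕ) (e : List ℕ) (x : R) :
    aeval x (PR n e) = 1 - n * x + SS e x := by
  unfold PR SS
  rw [map_add, map_sub, map_mul, aeval_X, map_one, map_natCast]
  congr 1
  induction e with
  | nil => simp
  | cons a e ih => simp [ih]

theorem eval_PR (n : ℕ) (e : List ℕ) (x : ℂ) :
    ((PR n e).map (Int.castRingHom ℂ)).eval x = 1 - n * x + SS e x := by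
  rw [← aeval_PR, aeval_def, eval_map]
  rfl

theorem pow_lip {z w : ℂ} (hz : ‖z‖ ≤ 1 / 2) (hw : ‖w‖ ≤ 1 / 2) (m : ℕ) :
    ‖z ^ m - w ^ m‖ ≤ ‖z - w‖ ∧ ‖z ^ m - w ^ m‖ ≤ m * (1 / 2) ^ (m - 1) * ‖z - w‖ := by
  have h1 : ‖z ^ m - w ^ m‖ ≤ m * (1 / 2) ^ (m - 1) * ‖z - w‖ := by
    induction m with
    | zero => simp
    | succ m ih =>
      have h2 : z ^ (m + 1) - w ^ (m + 1) = z * (z ^ m - w ^ m) + (z - w) * w ^ m := by ring
      rw [h2]
      refine (norm_add_le _ _).trans ?_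
      rw [norm_mul, norm_mul, norm_pow]
      have h3 : ‖z‖ * ‖z ^ m - w ^ m‖ ≤ 1 / 2 * (m * (1 / 2) ^ (m - 1) * ‖z - w‖) := by
        gcongr
      have h4 : ‖z - w‖ * ‖w‖ ^ m ≤ ‖z - w‖ * (1 / 2) ^ m := by
        gcongr
      have h5 : (1 / 2 : ℝ) * (m * (1 / 2) ^ (m - 1) * ‖z - w‖) = m * (1 / 2) ^ m * ‖z - w‖ := by
        cases m with
        | zero => simp
        | succ m => rw [Nat.add_sub_cancel, pow_succ]; ring
      rw [Nat.add_sub_cancel]
      push_cast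
      calc _ ≤ m * (1 / 2) ^ m * ‖z - w‖ + ‖z - w‖ * (1 / 2) ^ m := by linarith
        _ = _ := by ring
  refine ⟨h1.trans ?_, h1⟩
  have h6 : (m : ℝ) * (1 / 2) ^ (m - 1) ≤ 1 := by
    cases m with
    | zero => simp
    | succ m =>
      rw [Nat.add_sub_cancel, one_div, inv_pow, ← div_eq_mul_inv, div_le_one (by positivity)]
      exact_mod_cast Nat.lt_two_pow_self
  have := mul_le_mul_of_nonneg_right h6 (norm_nonneg (z - w))
  linarith

theorem SS_lip {z w : ℂ} (hz : ‖z‖ ≤ 1 / 2) (hw : ‖w‖ ≤ 1 / 2) (e : List ℕ) :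
    ‖SS e z - SS e w‖ ≤ e.length * ‖z - w‖ := by
  induction e with
  | nil => simp [SS]
  | cons a e ih =>
    have h1 : SS (a :: e) z - SS (a :: e) w = (z ^ (a + 1) - w ^ (a + 1)) + (SS e z - SS e w) := by
      simp only [SS, List.map_cons, List.sum_cons]
      ring
    rw [h1]
    refine (norm_add_le _ _).trans ?_
    have h2 := (pow_lip hz hw (a + 1)).1
    rw [List.length_cons]
    push_cast
    linarith

theorem SS_bound {z : ℂ} (hz : ‖z‖ ≤ 1) {e : List ℕ} (he : ∀ a ∈ e, 2 ≤ a) :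
    ‖SS e z‖ ≤ e.length * ‖z‖ ^ 3 := by
  induction e with
  | nil => simp [SS]
  | cons a e ih =>
    have h1 : SS (a :: e) z = z ^ (a + 1) + SS e z := by
      simp only [SS, List.map_cons, List.sum_cons]
    rw [h1]
    refine (norm_add_le _ _).trans ?_
    have h2 := ih fun b hb => he b (List.mem_cons_of_mem _ hb)
    have h3 : ‖z ^ (a + 1)‖ ≤ ‖z‖ ^ 3 := by
      rw [norm_pow]
      exact pow_le_pow_of_le_one (norm_nonneg _) hz (by have := he a List.mem_cons_self; omega)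
    rw [List.length_cons]
    push_cast
    linarith

theorem SS_ofReal (e : List ℕ) (x : ℝ) : ((SS e x : ℝ) : ℂ) = SS e (x : ℂ) := by
  induction e with
  | nil => simp [SS]
  | cons a e ih =>
    have h1 : ∀ {R : Type} [CommRing R] (y : R), SS (a :: e) y = y ^ (a + 1) + SS e y := by
      intro R _ y
      simp only [SS, List.map_cons, List.sum_cons]
    rw [h1, h1, Complex.ofReal_add, ih, Complex.ofReal_pow]

theorem SS_nonneg (e : List ℕ) {x : ℝ} (hx : 0 ≤ x) : 0 ≤ SS e x := by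
  unfold SS
  refine List.sum_nonneg fun y hy => ?_
  obtain ⟨a, _, rfl⟩ := List.mem_map.mp hy
  positivity

theorem continuous_SS (e : List ℕ) : Continuous fun x : ℝ => SS e x := by
  induction e with
  | nil => simpa [SS] using continuous_const
  | cons a e ih =>
    have h1 : (fun x : ℝ => SS (a :: e) x) = fun x => x ^ (a + 1) + SS e x := by
      funext y
      simp only [SS, List.map_cons, List.sum_cons]
    rw [h1]
    exact (continuous_pow _).add ih

/-- the small root -/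
def Rt (n : ℕ) (e : List ℕ) (ρ : ℝ) : Prop :=
  0 < ρ ∧ ρ ≤ 1 / 2 ∧ (n : ℝ) * ρ = 1 + SS e ρ

theorem exists_rt {n : ℕ} {e : List ℕ} (h : Adm n e) : ∃ ρ, Rt n e ρ := by
  have hn : (e.length : ℝ) + 2 ≤ n := by exact_mod_cast h.len
  have h1 : Set.Icc ((fun x : ℝ => (n : ℝ) * x - (1 + SS e x)) 0)
      ((fun x : ℝ => (n : ℝ) * x - (1 + SS e x)) (1 / 2)) ⊆
      (fun x : ℝ => (n : ℝ) * x - (1 + SS e x)) '' Set.Icc 0 (1 / 2) :=
    intermediate_value_Icc (by norm_num)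
      ((continuous_const.mul continuous_id).sub (continuous_const.add (continuous_SS e))).continuousOn
  have h2 : SS e (0 : ℝ) = 0 := by
    unfold SS
    refine List.sum_eq_zero fun y hy => ?_
    obtain ⟨a, _, rfl⟩ := List.mem_map.mp hy
    simp
  have h3 : SS e (1 / 2 : ℝ) ≤ e.length * (1 / 2) ^ 3 := by
    have h4 := SS_bound (z := ((1 / 2 : ℝ) : ℂ)) (by rw [Complex.norm_real]; norm_num) h.two
    rw [← SS_ofReal, Complex.norm_real, Complex.norm_real, Real.norm_of_nonneg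
      (SS_nonneg e (by norm_num)), Real.norm_of_nonneg (by norm_num)] at h4
    exact h4
  obtain ⟨ρ, ⟨hρ0, hρ1⟩, hρ⟩ := h1 (show (0 : ℝ) ∈ Set.Icc _ _ from ⟨by simp only [h2]; norm_num,
    by
      simp only
      have h5 : (0 : ℝ) ≤ e.length := Nat.cast_nonneg _
      linarith⟩)
  simp only at hρ
  have hne : ρ ≠ 0 := by
    rintro rfl
    rw [h2] at hρ
    norm_num at hρ
  exact ⟨ρ, lt_of_le_of_ne hρ0 hne.symm, hρ1, by linarith⟩

theorem Rt.complex {n : ℕ} {e : List ℕ} {ρ : ℝ} (h : Rt n e ρ) :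
    (n : ℂ) * (ρ : ℂ) = 1 + SS e (ρ : ℂ) := by
  have h1 := congrArg (fun x : ℝ => (x : ℂ)) h.2.2
  simp only [Complex.ofReal_mul, Complex.ofReal_add, Complex.ofReal_one, Complex.ofReal_natCast,
    SS_ofReal] at h1
  exact h1

/-- the small root is the only root in the disc -/
theorem uniq {n : ℕ} {e : List ℕ} (h : Adm n e) {ρ : ℝ} (hρ : Rt n e ρ) {z : ℂ} (hz : ‖z‖ ≤ 1)
    (hz0 : (n : ℂ) * z = 1 + SS e z) : z = ρ := by
  have hn : (e.length : ℝ) + 2 ≤ n := by exact_mod_cast h.len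
  have hl : (0 : ℝ) ≤ e.length := Nat.cast_nonneg _
  have h1 : (n : ℝ) * ‖z‖ ≤ 1 + e.length * ‖z‖ := by
    have h2 := congrArg norm hz0
    rw [norm_mul, Complex.norm_natCast] at h2
    rw [h2]
    refine (norm_add_le _ _).trans ?_
    rw [norm_one]
    have h3 := SS_bound hz h.two
    have h4 : ‖z‖ ^ 3 ≤ ‖z‖ := by
      calc ‖z‖ ^ 3 ≤ ‖z‖ ^ 1 := pow_le_pow_of_le_one (norm_nonneg _) hz (by norm_num)
        _ = ‖z‖ := pow_one _
    have h5 := mul_le_mul_of_nonneg_left h4 hl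
    linarith
  have hz2 : ‖z‖ ≤ 1 / 2 := by
    have h2 : ((e.length : ℝ) + 2) * ‖z‖ ≤ n * ‖z‖ :=
      mul_le_mul_of_nonneg_right hn (norm_nonneg _)
    linarith
  have hρ2 : ‖(ρ : ℂ)‖ ≤ 1 / 2 := by
    rw [Complex.norm_real, Real.norm_of_nonneg hρ.1.le]
    exact hρ.2.1
  have h3 : (n : ℝ) * ‖z - ρ‖ ≤ e.length * ‖z - ρ‖ := by
    have h4 : (n : ℂ) * (z - ρ) = SS e z - SS e (ρ : ℂ) := by
      rw [mul_sub, hz0, hρ.complex]
      ring
    have h5 := congrArg norm h4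
    rw [norm_mul, Complex.norm_natCast] at h5
    rw [h5]
    exact SS_lip hz2 hρ2 e
  have h6 : ((e.length : ℝ) + 2) * ‖z - ρ‖ ≤ n * ‖z - ρ‖ :=
    mul_le_mul_of_nonneg_right hn (norm_nonneg _)
  have h7 : ‖z - ρ‖ ≤ 0 := by linarith [norm_nonneg (z - (ρ : ℂ))]
  exact sub_eq_zero.mp (norm_le_zero_iff.mp h7)

/-- the inverse of the small root is not a root -/
theorem inv_not_root {n : ℕ} {e : List ℕ} (h : Adm n e) {ρ : ℝ} (hρ : Rt n e ρ) :
    (n : ℝ) * ρ⁻¹ ≠ 1 + SS e ρ⁻¹ := by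
  have hn : (e.length : ℝ) + 2 ≤ n := by exact_mod_cast h.len
  have hl : (0 : ℝ) ≤ e.length := Nat.cast_nonneg _
  obtain ⟨h0, h1, h2⟩ := hρ
  have h3 : SS e ρ ≤ e.length * ρ ^ 3 := by
    have h4 := SS_bound (z := (ρ : ℂ)) (by
      rw [Complex.norm_real, Real.norm_of_nonneg h0.le]; linarith) h.two
    rw [← SS_ofReal, Complex.norm_real, Complex.norm_real, Real.norm_of_nonneg
      (SS_nonneg e h0.le), Real.norm_of_nonneg h0.le] at h4
    exact h4
  cases e with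
  | nil =>
    have e1 : SS ([] : List ℕ) ρ = 0 := by simp [SS]
    have e2 : SS ([] : List ℕ) ρ⁻¹ = 0 := by simp [SS]
    rw [e1, add_zero] at h2
    rw [e2, add_zero]
    intro h4
    have h5 : (n : ℝ) = ρ := by
      calc (n : ℝ) = n * ρ⁻¹ * ρ := by field_simp
        _ = ρ := by rw [h4, one_mul]
    simp only [List.length_nil, Nat.cast_zero] at hn
    linarith
  | cons a e =>
    have ha : 2 ≤ a := h.two a List.mem_cons_self
    have e1 : SS (a :: e) ρ⁻¹ = ρ⁻¹ ^ (a + 1) + SS e ρ⁻¹ := by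
      simp only [SS, List.map_cons, List.sum_cons]
    have e2 : 0 ≤ SS e ρ⁻¹ := SS_nonneg e (by positivity)
    have hinv : 1 ≤ ρ⁻¹ := by
      rw [one_le_inv₀ h0]; linarith
    have e3 : ρ⁻¹ ^ 3 ≤ ρ⁻¹ ^ (a + 1) := pow_le_pow_right₀ hinv (by omega)
    have e4 : (n : ℝ) * ρ⁻¹ ≤ ρ⁻¹ ^ 3 := by
      -- `n ρ ^ 2 ≤ 1`
      have h5 : (n : ℝ) * ρ ^ 2 ≤ 1 := by
        have h6 : ρ ^ 3 ≤ ρ / 4 := by nlinarith [mul_nonneg h0.le h0.le]
        have h7 : (n : ℝ) * ρ ≤ 1 + (n - 2) * (ρ / 4) := by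
          rw [h2]
          have h8 : ((a :: e).length : ℝ) * ρ ^ 3 ≤ (n - 2) * (ρ / 4) := by
            have h9 : ((a :: e).length : ℝ) ≤ n - 2 := by linarith
            have h10 : (0 : ℝ) ≤ ρ ^ 3 := by positivity
            nlinarith
          linarith
        -- `ρ ≤ 4 / (3 n + 2)`
        have h11 : (3 * n + 2) * ρ ≤ 4 := by linarith
        have hn2 : (2 : ℝ) ≤ n := by linarith
        have h12 : ((3 * n + 2) * ρ) ^ 2 ≤ 4 ^ 2 := by
          have : 0 ≤ (3 * (n : ℝ) + 2) * ρ := by positivity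
          exact pow_le_pow_left₀ this h11 2
        have h13 : 16 * (n : ℝ) ≤ (3 * n + 2) ^ 2 := by nlinarith
        have h14 : 16 * (n : ℝ) * ρ ^ 2 ≤ (3 * n + 2) ^ 2 * ρ ^ 2 :=
          mul_le_mul_of_nonneg_right h13 (by positivity)
        nlinarith
      have h15 : (n : ℝ) * ρ⁻¹ = (n * ρ ^ 2) * ρ⁻¹ ^ 3 := by field_simp
      rw [h15]
      have : 0 ≤ ρ⁻¹ ^ 3 := by positivity
      nlinarith
    rw [e1]
    intro h16
    linarith

end Pool.Agent.H41.DS
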